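import Pool.Agent.J6H12.SG.ParA
import Pool.Agent.J6H12.SG.ParB

/-!
# Amenable groups: absolutely continuous convolution semigroups on the group and on its dual

(a) The semigroup `exp (t Σ (ρ_n - δ_e))` is built with symmetric absolutely continuous jump
distributions, `ρ_0` with positive density.  The spectral theorem (in elementary form) bounds the
`ρ_0`-average of `‖λ_s λ(μ_t) ξ - λ(μ_t) ξ‖²` by `‖ξ‖² / t`.

(b) `φ_t = exp (-t Σ (1 - f_n))` where `f_0` is an average of bump functions with supports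
shrinking to the identity and `f_n`, `n ≥ 1`, come from Reiter's condition.  The decomposition of
`φ_t` according to the first index that contributes, and Fell's absorption principle, give
`φ_t ∈ A(H)`.
-/

set_option autoImplicit false

open MeasureTheory Filter Topology BoundedContinuousFunction
open scoped ZeroAtInfty ComplexConjugate InnerProductSpace ComplexOrder

namespace Pool.Agent.Results.MP_5d826d_an.AmenableSemigroups

open Pool.Agent.J6H12.SG (lamM_add lamM_smul lamM_bound)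

variable {H : Type*} [Group H] [TopologicalSpace H] [IsTopologicalGroup H]
  [MeasurableSpace H] [BorelSpace H]

/-- `x ↦ f (a x)` -/
def translate (a : H) (f : H →ᵇ ℝ) : H →ᵇ ℝ :=
  f.compContinuous ⟨fun x => a * x, continuous_const_mul a⟩

variable (H) in
/-- Amenability: there is a left invariant mean on the bounded continuous real functions. -/
def Amenable : Prop :=
  ∃ M : (H →ᵇ ℝ) →ₗ[ℝ] ℝ, (∀ f : H →ᵇ ℝ, (∀ x, 0 ≤ f x) → 0 ≤ M f) ∧
    M (BoundedContinuousFunction.const H 1) = 1 ∧ ∀ (f : H →ᵇ ℝ) (a : H), M (translate a f) = M f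

/-- Positive definite functions: the matrix `φ(x⁻¹y)`, `x, y ∈ H`, is positive semidefinite. -/
def PosDef (φ : H → ℂ) : Prop := (Matrix.of fun x y : H => φ (x⁻¹ * y)).PosSemidef

/-- A convolution semigroup of probability measures `μ t`, `t ≥ 0` (the values at negative `t` are
irrelevant): `μ (s + t) = μ s * μ t` and `μ 0 = δ_e`. -/
structure IsConvolutionSemigroup (μ : ℝ → Measure H) : Prop where
  prob : ∀ t, 0 ≤ t → IsProbabilityMeasure (μ t)
  add : ∀ s t, 0 ≤ s → 0 ≤ t → μ (s + t) = (μ s).mconv (μ t)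
  zero : μ 0 = Measure.dirac 1

/-- `w*`-continuity: `∫ f dμ_t → f(e)` as `t → 0+`, for all continuous functions `f : H → ℂ`
vanishing at infinity. -/
def WStarContinuous (μ : ℝ → Measure H) : Prop :=
  ∀ f : C₀(H, ℂ), Tendsto (fun t => ∫ x, f x ∂(μ t)) (𝓝[>] 0) (𝓝 (f 1))

/-- A convolution semigroup on the dual of `H`: continuous positive definite functions `φ t`,
`t ≥ 0`, with `φ t e = 1`, `φ (s + t) = φ s φ t` and `φ 0 = 1`. -/
structure IsDualSemigroup (φ : ℝ → H → ℂ) : Prop where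
  cont : ∀ t, 0 ≤ t → Continuous (φ t)
  posDef : ∀ t, 0 ≤ t → PosDef (φ t)
  one : ∀ t, 0 ≤ t → φ t 1 = 1
  add : ∀ s t, 0 ≤ s → 0 ≤ t → ∀ g, φ (s + t) g = φ s g * φ t g
  zero : ∀ g, φ 0 g = 1

/-- `w*`-continuity on the dual side: `φ t → 1` as `t → 0+`, tested on `L¹(H)`, which is dense in
`C*(H)` (the `φ t` are states of `C*(H)`, hence this is convergence in the weak* topology of
`B(H) = C*(H)*`). -/
def DualWStarContinuous (m : Measure H) (φ : ℝ → H → ℂ) : Prop :=
  ∀ h : H → ℂ, Integrable h m →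
    Tendsto (fun t => ∫ g, h g * φ t g ∂m) (𝓝[>] 0) (𝓝 (∫ g, h g ∂m))

/-! ### The left regular representation -/

/-- The Hilbert space `L²(H)`. -/
def L2H (m : Measure H) : Type _ := Lp ℂ 2 m

noncomputable instance (m : Measure H) : NormedAddCommGroup (L2H m) :=
  inferInstanceAs (NormedAddCommGroup (Lp ℂ 2 m))

noncomputable instance (m : Measure H) : InnerProductSpace ℂ (L2H m) :=
  inferInstanceAs (InnerProductSpace ℂ (Lp ℂ 2 m))

instance (m : Measure H) : CompleteSpace (L2H m) :=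
  inferInstanceAs (CompleteSpace (Lp ℂ 2 m))

variable [LocallyCompactSpace H] [SecondCountableTopology H] [T2Space H]

/-- `λ_s`, where `(λ_s ξ)(x) = ξ(s⁻¹ x)` for almost all `x` -/
noncomputable def leftReg (m : Measure H) [m.IsHaarMeasure] (s : H) (ξ : L2H m) : L2H m :=
  (DomMulAct.mk s⁻¹ • (show Lp ℂ 2 m from ξ) : Lp ℂ 2 m)

theorem leftReg_add (m : Measure H) [m.IsHaarMeasure] (μ : Measure H) [IsFiniteMeasure μ]
    (ξ η : L2H m) : ∫ s, leftReg m s (ξ + η) ∂μ =
      ∫ s, leftReg m s ξ ∂μ + ∫ s, leftReg m s η ∂μ := lamM_add μ ξ η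

theorem leftReg_smul (m : Measure H) [m.IsHaarMeasure] (μ : Measure H) [IsFiniteMeasure μ]
    (c : ℂ) (ξ : L2H m) : ∫ s, leftReg m s (c • ξ) ∂μ = c • ∫ s, leftReg m s ξ ∂μ :=
  lamM_smul μ c ξ

/-- The linear map `ξ ↦ ∫ λ_s ξ dμ(s)` on `L²(H)`. -/
noncomputable def lamL (m : Measure H) [m.IsHaarMeasure] (μ : Measure H) [IsFiniteMeasure μ] :
    L2H m →ₗ[ℂ] L2H m where
  toFun ξ := ∫ s, leftReg m s ξ ∂μ
  map_add' := leftReg_add m μ
  map_smul' := leftReg_smul m μ

theorem lamL_bound (m : Measure H) [m.IsHaarMeasure] (μ : Measure H) [IsFiniteMeasure μ]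
    (ξ : L2H m) : ‖lamL m μ ξ‖ ≤ μ.real Set.univ * ‖ξ‖ := lamM_bound μ ξ

/-- The bounded operator `λ(μ) = ∫ λ_s dμ(s)` on `L²(H)`. -/
noncomputable def lamOp (m : Measure H) [m.IsHaarMeasure] (μ : Measure H) [IsFiniteMeasure μ] :
    L2H m →L[ℂ] L2H m :=
  (lamL m μ).mkContinuous (μ.real Set.univ) (lamL_bound m μ)

/-- `‖λ(ω - μ)‖ = ‖λ(ω) - λ(μ)‖` -/
noncomputable def lamDist (m : Measure H) [m.IsHaarMeasure] (ω μ : Measure H) [IsFiniteMeasure ω]
    [IsFiniteMeasure μ] : ℝ :=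
  ‖lamOp m ω - lamOp m μ‖

/-- The Fourier algebra `A(H)`, as the space of the ultraweakly continuous functionals on the
von Neumann algebra of the left regular representation: the functions
`u(s) = ∑ n, ⟪λ_s ξ_n, η_n⟫` on `H` with `∑ n, ‖ξ_n‖ ‖η_n‖ < ∞`. -/
def InFourier (m : Measure H) [m.IsHaarMeasure] (u : H → ℂ) : Prop :=
  ∃ ξ η : ℕ → L2H m, Summable (fun n => ‖ξ n‖ * ‖η n‖) ∧
    ∀ s, HasSum (fun n => ⟪η n, leftReg m s (ξ n)⟫_ℂ) (u s)

/-- The conclusion of (a) for the semigroup `μ`. -/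
structure PartA (m : Measure H) [m.IsHaarMeasure] (μ : ℝ → Measure H)
    [∀ t, IsProbabilityMeasure (μ t)] : Prop where
  semigroup : IsConvolutionSemigroup μ
  wstar : WStarContinuous μ
  absCont : ∀ t, 0 < t → μ t ≪ m
  norm : ∀ t, 0 < t → ‖lamOp m (μ t)‖ = 1
  decay : ∀ (ω : Measure H) [IsProbabilityMeasure ω], ω ≪ m →
    Tendsto (fun t => lamDist m (ω.mconv (μ t)) (μ t)) atTop (𝓝 0)

/-- The conclusion of (b) for the semigroup `φ`. -/
structure PartB (m : Measure H) [m.IsHaarMeasure] (φ : ℝ → H → ℂ) : Prop where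
  semigroup : IsDualSemigroup φ
  wstar : DualWStarContinuous m φ
  locUnif : ∀ K : Set H, IsCompact K → TendstoUniformlyOn φ (fun _ => 1) (𝓝[>] 0) K
  fourier : ∀ t, 0 < t → InFourier m (φ t)
  decay : ∀ ω : H → ℂ, PosDef ω → InFourier m ω → ω 1 = 1 →
    TendstoUniformly (fun t g => ω g * φ t g - φ t g) (fun _ => 0) atTop

/-- **Q2, positive answer to (a) and (b).** -/
theorem result (H : Type*) [Group H] [TopologicalSpace H] [IsTopologicalGroup H]
    [LocallyCompactSpace H] [SecondCountableTopology H] [T2Space H] [MeasurableSpace H]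
    [BorelSpace H] (m : Measure H) [m.IsHaarMeasure] (hH : Amenable H) :
    (∃ (μ : ℝ → Measure H) (_ : ∀ t, IsProbabilityMeasure (μ t)), PartA m μ) ∧
      ∃ φ : ℝ → H → ℂ, PartB m φ := by
  obtain ⟨M, hM1, hM2, hM3⟩ := hH
  have hM : Pool.Agent.J6H12.SG.IsLIM M := ⟨hM1, hM2, hM3⟩
  constructor
  · obtain ⟨μ, h1, h2, h3, h4, h5, h6, h7⟩ := Pool.Agent.J6H12.SG.part_a (m := m) hM
    refine ⟨μ, h1, ⟨fun t _ => h1 t, h3, h2⟩, fun f => ?_, h5, fun t _ => h6 t, h7⟩
    have hre := h4 (fun x => (f x).re) (Complex.continuous_re.comp f.continuous)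
      ((Complex.continuous_re.tendsto 0).comp (zero_at_infty f))
    have him := h4 (fun x => (f x).im) (Complex.continuous_im.comp f.continuous)
      ((Complex.continuous_im.tendsto 0).comp (zero_at_infty f))
    have hint : ∀ t, Integrable (fun x => f x) (μ t) := by
      intro t
      exact f.toBCF.integrable (μ t)
    have h6 : Tendsto (fun t => ((∫ x, (f x).re ∂(μ t) : ℝ) : ℂ) +
        ((∫ x, (f x).im ∂(μ t) : ℝ) : ℂ) * Complex.I) (𝓝[>] 0)
        (𝓝 (((f 1).re : ℂ) + ((f 1).im : ℂ) * Complex.I)) :=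
      ((Complex.continuous_ofReal.tendsto _).comp hre).add
        (((Complex.continuous_ofReal.tendsto _).comp him).mul_const Complex.I)
    rw [Complex.re_add_im] at h6
    refine h6.congr fun t => ?_
    have h7 := integral_re_add_im (hint t)
    exact h7
  · obtain ⟨φ, h1, h2, h3, h4, h5, h6, h7⟩ := Pool.Agent.J6H12.SG.part_b (m := m) hM
    exact ⟨φ, ⟨fun t ht => (h1 t ht).1, fun t ht => (h1 t ht).2.1, fun t ht => (h1 t ht).2.2,
      h2, h3⟩, h4, h5, h6, h7⟩

end Pool.Agent.Results.MP_5d826d_an.AmenableSemigroups
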